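import Mathlib
import Pool.Agent.H.MP_5c31ca_lc.C

namespace Pool.Agent.Results.MP_5c31ca_lc.Abelian

/-- The abelian cellular automaton of radius `r` with coefficients `h 0, ..., h (2r)`. -/
def ca {A : Type} [AddCommGroup A] {r : ℕ} (h : Fin (2 * r + 1) → A →+ A) (x : ℤ → A) : ℤ → A :=
  fun i => ∑ j, h j (x (i + (j : ℕ) - r))

/-- `F` has a diamond whose difference set keeps bounded diameter. -/
def HasSoliton {A : Type} (F : (ℤ → A) → (ℤ → A)) : Prop :=
  ∃ x y : ℤ → A, x ≠ y ∧ {i | x i ≠ y i}.Finite ∧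
    ∃ D : ℕ, ∀ (t : ℕ) (i j : ℤ), F^[t] x i ≠ F^[t] y i → F^[t] x j ≠ F^[t] y j → |i - j| ≤ D

theorem result : ∃ f : ℕ × List (List ℕ) × List (List ℕ) → Bool, Computable f ∧
    ∀ (A : Type) [AddCommGroup A] (n r : ℕ) (e : A ≃ Fin n) (h : Fin (2 * r + 1) → A →+ A),
      f (r, List.ofFn fun a => List.ofFn fun b => (e (e.symm a + e.symm b)).val,
          List.ofFn fun j => List.ofFn fun a => (e (h j (e.symm a))).val) = true ↔
        HasSoliton (ca h) := by
  refine ⟨fun a => Lib.helper21.PR.cd (H.MP_5c31ca_lc.Dec a),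
    (Lib.helper21.PR.dec H.MP_5c31ca_lc.pr_dec).to_comp, fun A _ n r e h => ?_⟩
  rw [Lib.helper21.PR.cd_true]
  exact H.MP_5c31ca_lc.dec_iff e h

end Pool.Agent.Results.MP_5c31ca_lc.Abelian
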